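import Pool.Agent.Work.MP_2738db_nt_Y.Interface4

/-!
Block CYC of Theorem Y for the Fermat-Catalan conjecture: two logarithms over the cyclotomic field
of `q`-th roots of unity at a prime of degree one.
-/

set_option autoImplicit false

namespace Pool.Agent.Work.MP_2738db_nt_Y.helper24

open NumberField Finset
open Pool.Agent.Work.MP_2738db_nt_A (HB)

/-- there is a cyclotomic number field -/
lemma exists_field (q : ℕ) (hq : q ≠ 0) : ∃ (K : Type) (_ : Field K) (_ : NumberField K),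
    IsCyclotomicExtension {q} ℚ K := by
  have : NeZero q := ⟨hq⟩
  have : NeZero ((q : ℕ) : ℚ) := ⟨by exact_mod_cast hq⟩
  refine ⟨CyclotomicField q ℚ, inferInstance, inferInstance, ?_⟩
  have h : (DivisionRing.toRatAlgebra : Algebra ℚ (CyclotomicField q ℚ)) =
    CyclotomicField.algebra q ℚ := Subsingleton.elim _ _
  rw [h]
  exact CyclotomicField.isCyclotomicExtension q ℚ

section
variable (K : Type) [Field K] [NumberField K]

/-- the primitive root of unity in the ring of integers -/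
noncomputable def zt (q : ℕ) [NeZero q] [IsCyclotomicExtension {q} ℚ K] : 𝓞 K :=
  (IsCyclotomicExtension.zeta_spec q ℚ K).toInteger

lemma zt_prim (q : ℕ) [NeZero q] [IsCyclotomicExtension {q} ℚ K] : IsPrimitiveRoot (zt K q) q :=
  (IsCyclotomicExtension.zeta_spec q ℚ K).toInteger_isPrimitiveRoot

/-- reduction modulo a prime of degree one above `r` -/
lemma exists_hom (q r : ℕ) [NeZero q] [IsCyclotomicExtension {q} ℚ K] [Fact r.Prime] (t : ZMod r)
    (ht : IsPrimitiveRoot t q) : ∃ φ : 𝓞 K →+* ZMod r, φ (zt K q) = t := by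
  have hζ := IsCyclotomicExtension.zeta_spec q ℚ K
  have hmin : Polynomial.aeval t (minpoly ℤ hζ.integralPowerBasis.gen) = 0 := by
    rw [hζ.integralPowerBasis_gen, ← NumberField.RingOfIntegers.minpoly_coe]
    have h1 : (hζ.toInteger : K) = IsCyclotomicExtension.zeta q ℚ K := rfl
    rw [h1, ← Polynomial.cyclotomic_eq_minpoly hζ (NeZero.pos _), Polynomial.aeval_def,
      ← Polynomial.eval_map, Polynomial.map_cyclotomic]
    exact ht.isRoot_cyclotomic (NeZero.pos _)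
  refine ⟨(hζ.integralPowerBasis.lift t hmin).toRingHom, ?_⟩
  have h2 := hζ.integralPowerBasis.lift_gen t hmin
  rw [hζ.integralPowerBasis_gen] at h2
  exact h2

end

lemma place_nat {K : Type} [Field K] [NumberField K] (v : InfinitePlace K) (n : ℕ) :
    v (n : K) = n := by
  rw [← InfinitePlace.norm_embedding_eq v, map_natCast, Complex.norm_natCast]

lemma place_neg {K : Type} [Field K] [NumberField K] (v : InfinitePlace K) (x : K) :
    v (-x) = v x := by
  rw [← InfinitePlace.norm_embedding_eq v, ← InfinitePlace.norm_embedding_eq v, map_neg, norm_neg]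

lemma hb_nat {K : Type} [Field K] [NumberField K] {n : ℕ} {A : ℝ} (hn : 1 ≤ n)
    (h : Real.log n ≤ A) : HB K (n : 𝓞 K) A := by
  intro v
  have h1 : ((n : 𝓞 K) : K) = (n : K) := by simp
  rw [h1, place_nat]
  have h2 : (0 : ℝ) < n := by exact_mod_cast hn
  calc (n : ℝ) = Real.exp (Real.log n) := (Real.exp_log h2).symm
    _ ≤ Real.exp A := Real.exp_le_exp.mpr h

lemma place_root {K : Type} [Field K] [NumberField K] (v : InfinitePlace K) {x : K} {n : ℕ}
    (hn : n ≠ 0) (hx : x ^ n = 1) : v (1 - x) ≤ 2 := by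
  rw [← InfinitePlace.norm_embedding_eq v, map_sub, map_one]
  have h1 : ‖v.embedding x‖ = 1 := by
    apply Complex.norm_eq_one_of_pow_eq_one _ hn
    rw [← map_pow, hx, map_one]
  calc ‖1 - v.embedding x‖ ≤ ‖(1 : ℂ)‖ + ‖v.embedding x‖ := norm_sub_le _ _
    _ = 2 := by rw [h1, norm_one]; norm_num

theorem cyc (hT : Stmt_Tln) : Stmt_Cyc := by
  refine ⟨2 * 10 ^ 8, by norm_num, ?_⟩
  intro p q r V s z Y e κ A hp hq hr hp3 hq3 hpq he hκ hs hz hY hrY hrz hrs hrd hV hV1 hks hA hsA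
    hzA hC
  have : Fact r.Prime := ⟨hr⟩
  have : Fact q.Prime := ⟨hq⟩
  have : NeZero q := ⟨hq.ne_zero⟩
  -- the residue of order q
  have hz0 : (z : ZMod r) ≠ 0 := fun h => hrz ((ZMod.natCast_eq_zero_iff z r).mp h)
  have hs0 : (s : ZMod r) ≠ 0 := fun h => hrs ((ZMod.natCast_eq_zero_iff s r).mp h)
  have he0 : (e : ZMod r) ≠ 0 := by
    rcases he with h | h <;> rw [h] <;> simp
  have hee : e * e = 1 := by rcases he with h | h <;> rw [h] <;> norm_num
  set w : ZMod r := (e : ZMod r) * (z : ZMod r) ^ p with hw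
  have hw0 : w ≠ 0 := mul_ne_zero he0 (pow_ne_zero _ hz0)
  have hd0 : (Y : ZMod r) - w ≠ 0 := by
    intro h
    apply hrd
    rw [← ZMod.intCast_zmod_eq_zero_iff_dvd]
    push_cast
    exact h
  have hpow : (Y : ZMod r) ^ q = w ^ q := by
    have h1 : (r : ℤ) ∣ (Y : ℤ) ^ q - (e * (z : ℤ) ^ p) ^ q :=
      (dvd_pow_self (r : ℤ) (by omega)).trans hV
    rw [← ZMod.intCast_zmod_eq_zero_iff_dvd] at h1
    push_cast at h1
    exact sub_eq_zero.mp h1
  set t : ZMod r := (Y : ZMod r) / w with ht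
  have htq : t ^ q = 1 := by
    rw [ht, div_pow, hpow, div_self (pow_ne_zero _ hw0)]
  have ht1 : t ≠ 1 := by
    intro h
    rw [ht, div_eq_one_iff_eq hw0] at h
    exact hd0 (sub_eq_zero.mpr h)
  have hprim : IsPrimitiveRoot t q := by
    have h1 : orderOf t = q := orderOf_eq_prime htq ht1
    rw [← h1]
    exact IsPrimitiveRoot.orderOf t
  have hqr : q ∣ r - 1 := by
    have h1 : orderOf t = q := orderOf_eq_prime htq ht1
    have ht0 : t ≠ 0 := by
      intro h
      rw [h, zero_pow hq.ne_zero] at htq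
      exact zero_ne_one htq
    rw [← h1]
    exact orderOf_dvd_of_pow_eq_one (ZMod.pow_card_sub_one_eq_one ht0)
  have hr2 : 2 ≤ r := hr.two_le
  have hqlt : q < r := by
    have := Nat.le_of_dvd (by omega) hqr
    omega
  have hκ1 : 1 ≤ κ := by rcases hκ with h | h <;> omega
  have hκq : κ ≤ q := by rcases hκ with h | h <;> omega
  have hκ0 : (κ : ZMod r) ≠ 0 := by
    intro h
    have := Nat.le_of_dvd (by omega) ((ZMod.natCast_eq_zero_iff κ r).mp h)
    omega
  obtain ⟨K, hF, hN, hCy⟩ := exists_field q hq.ne_zero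
  obtain ⟨φ, hφ⟩ := exists_hom K q r t hprim
  set ζ : 𝓞 K := zt K q with hζd
  have hζ : IsPrimitiveRoot ζ q := zt_prim K q
  set P : Ideal (𝓞 K) := RingHom.ker φ with hP
  have memP : ∀ x : 𝓞 K, x ∈ P ↔ φ x = 0 := fun x => RingHom.mem_ker
  have hPp : P.IsPrime := RingHom.ker_isPrime φ
  have hrP : (r : 𝓞 K) ∈ P := by
    rw [memP, map_natCast]
    exact ZMod.natCast_self r
  have hPb : P ≠ ⊥ := by
    intro h
    rw [h, Ideal.mem_bot] at hrP
    exact hr.ne_zero (by exact_mod_cast hrP)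
  have hnorm : Ideal.absNorm P = r := by
    rw [Ideal.absNorm_apply, Submodule.cardQuot_apply]
    have hsurj : Function.Surjective φ := ZMod.ringHom_surjective φ
    have h1 := Nat.card_congr (RingHom.quotientKerEquivOfSurjective hsurj).toEquiv
    rw [Nat.card_zmod] at h1
    exact h1
  -- the power of P dividing Y - ζ w
  set W : 𝓞 K := (e : 𝓞 K) * (z : 𝓞 K) ^ p with hWd
  have hφW : φ W = w := by rw [hWd, map_mul, map_pow, map_intCast, map_natCast]
  have htw : t * w = Y := by rw [ht, div_mul_cancel₀ _ hw0]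
  have hprod : (Y : 𝓞 K) ^ q - W ^ q = ∏ μ ∈ Polynomial.nthRootsFinset q (1 : 𝓞 K),
      ((Y : 𝓞 K) - μ * W) := hζ.pow_sub_pow_eq_prod_sub_mul _ _ hq.pos
  have hmem : (Y : 𝓞 K) ^ q - W ^ q ∈ P ^ V := by
    have h1 : ((r : ℤ) : 𝓞 K) ^ V ∣ (Y : 𝓞 K) ^ q - W ^ q := by
      have := (Int.castRingHom (𝓞 K)).map_dvd hV
      simpa [hWd] using this
    obtain ⟨c, hc⟩ := h1
    rw [hc]
    apply Ideal.mul_mem_right
    apply Ideal.pow_mem_pow
    simpa using hrP
  have hζm : ζ ∈ Polynomial.nthRootsFinset q (1 : 𝓞 K) := hζ.mem_nthRootsFinset hq.pos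
  classical
  rw [hprod, ← Finset.prod_erase_mul _ _ hζm] at hmem
  have hfac : (Y : 𝓞 K) - ζ * W ∈ P ^ V := by
    rcases Ideal.IsPrime.mul_mem_pow P hmem with h | h
    · exfalso
      rw [hPp.prod_mem_iff] at h
      obtain ⟨μ, hμ, hμP⟩ := h
      rw [Finset.mem_erase, Polynomial.mem_nthRootsFinset hq.pos] at hμ
      obtain ⟨hμ1, hμ2⟩ := hμ
      obtain ⟨i, hi, hi2⟩ := hζ.eq_pow_of_pow_eq_one hμ2
      rw [memP, map_sub, map_natCast, map_mul, hφW, ← hi2, map_pow, hφ, ← htw, ← sub_mul] at hμP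
      have h2 : t ^ 1 = t ^ i := by
        rw [pow_one]
        exact sub_eq_zero.mp ((mul_eq_zero.mp hμP).resolve_right hw0)
      have h3 := hprim.pow_inj (by omega) hi h2
      apply hμ1
      rw [← hi2, ← h3, pow_one]
    · exact h
  -- the linear form
  obtain ⟨σ, hσ, hσe⟩ : ∃ σ : ℤ, (σ = 1 ∨ σ = -1) ∧
      (κ : ℤ) * ((Y : ℤ) - e * (z : ℤ) ^ p) = σ * (s : ℤ) ^ p := by
    rcases hks with h | h
    · exact ⟨1, Or.inl rfl, by rw [h]; ring⟩
    · exact ⟨-1, Or.inr rfl, by rw [h]; ring⟩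
  have hσσ : σ * σ = 1 := by rcases hσ with h | h <;> rw [h] <;> norm_num
  have hσK : (σ : 𝓞 K) * (σ : 𝓞 K) = 1 := by exact_mod_cast congrArg (Int.cast : ℤ → 𝓞 K) hσσ
  have hσe' : (κ : 𝓞 K) * ((Y : 𝓞 K) - W) = (σ : 𝓞 K) * (s : 𝓞 K) ^ p := by
    have := congrArg (Int.cast : ℤ → 𝓞 K) hσe
    push_cast at this
    rw [hWd]
    exact this
  set x₁ : 𝓞 K := -((σ : 𝓞 K) * (e : 𝓞 K) * (κ : 𝓞 K)) * (1 - ζ) with hx₁
  have hlin : x₁ * (z : 𝓞 K) ^ p - 1 * (s : 𝓞 K) ^ p ∈ P ^ V := by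
    have h1 : x₁ * (z : 𝓞 K) ^ p - 1 * (s : 𝓞 K) ^ p =
        -((σ : 𝓞 K) * (κ : 𝓞 K)) * ((Y : 𝓞 K) - ζ * W) := by
      have h2 : (s : 𝓞 K) ^ p = (σ : 𝓞 K) * ((κ : 𝓞 K) * ((Y : 𝓞 K) - W)) := by
        rw [hσe', ← mul_assoc, hσK, one_mul]
      rw [h2, hx₁, hWd]
      ring
    rw [h1]
    exact Ideal.mul_mem_left _ _ hfac
  have hx₁P : x₁ ∉ P := by
    rw [memP, hx₁, map_mul, map_neg, map_mul, map_mul, map_intCast, map_intCast, map_natCast,
      map_sub, map_one, hφ]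
    have hσ0 : (σ : ZMod r) ≠ 0 := by
      rcases hσ with h | h <;> rw [h] <;> simp
    exact mul_ne_zero (neg_ne_zero.mpr (mul_ne_zero (mul_ne_zero hσ0 he0) hκ0))
      (sub_ne_zero.mpr (Ne.symm ht1))
  have hx₁j : ∀ j : ℕ, 1 ≤ j → x₁ ^ j ≠ 1 ^ j := by
    intro j hj h
    rw [one_pow] at h
    have h1 : IsUnit x₁ := IsUnit.of_pow_eq_one h (by omega)
    have h2 : IsUnit (1 - ζ) := isUnit_of_mul_isUnit_right (hx₁ ▸ h1)
    have h3 : Prime (ζ - 1) := (IsCyclotomicExtension.zeta_spec q ℚ K).zeta_sub_one_prime'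
    apply h3.not_isUnit
    have h4 : ζ - 1 = -(1 - ζ) := by ring
    rw [h4]
    exact h2.neg
  -- sizes
  have hr0 : (0 : ℝ) < r := by exact_mod_cast hr.pos
  have hr1 : (1 : ℝ) ≤ r := by exact_mod_cast hr.one_le
  have hq3' : (3 : ℝ) ≤ q := by exact_mod_cast hq3
  have hqr' : (q : ℝ) ≤ r := by exact_mod_cast hqlt.le
  set B : ℝ := Real.log (2 * q) with hB
  have hB1 : 1 ≤ B := by
    rw [hB, Real.le_log_iff_exp_le (by positivity)]
    have := Real.exp_one_lt_d9
    linarith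
  have hB2 : B ≤ 2 * r := by
    have := Real.log_le_sub_one_of_pos (show (0 : ℝ) < 2 * q by positivity)
    linarith
  have hBx : HB K x₁ B := by
    intro v
    have h0 : (x₁ : K) = -((σ : K) * (e : K) * (κ : K)) * (1 - (ζ : K)) := by
      rw [hx₁]; push_cast; rfl
    have h1 : v (((σ : ℤ) : K)) = 1 := by
      rcases hσ with h | h <;> rw [h] <;> simp [place_neg]
    have h2 : v (((e : ℤ) : K)) = 1 := by
      rcases he with h | h <;> rw [h] <;> simp [place_neg]
    have h3 : v (1 - (ζ : K)) ≤ 2 := by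
      apply place_root v hq.ne_zero
      have := hζ.pow_eq_one
      exact_mod_cast congrArg (algebraMap (𝓞 K) K) this
    have h4 : v (x₁ : K) = v ((κ : ℕ) : K) * v (1 - (ζ : K)) := by
      rw [h0, neg_mul, place_neg, map_mul, map_mul, map_mul, h1, h2]
      ring
    rw [h4, place_nat, hB, Real.exp_log (by positivity)]
    have h5 : (κ : ℝ) ≤ q := by exact_mod_cast hκq
    have h6 : (0 : ℝ) ≤ κ := by positivity
    nlinarith
  have hB1' : HB K (1 : 𝓞 K) B := by
    have := hb_nat (K := K) (n := 1) (A := B) le_rfl (by simp; linarith)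
    simpa using this
  have hL0 : 0 ≤ Real.log (p : ℝ) := Real.log_nonneg (by exact_mod_cast (by omega : 1 ≤ p))
  have hfin : (Module.finrank ℚ K : ℝ) ≤ r := by
    rw [IsCyclotomicExtension.Rat.finrank (k := q) K, Nat.totient_prime hq]
    exact_mod_cast (by omega : q - 1 ≤ r)
  have hone : (1 : 𝓞 K) ∉ P := by rw [memP, map_one]; exact one_ne_zero
  have hzP : (z : 𝓞 K) ∉ P := by rw [memP, map_natCast]; exact hz0
  have hsP : (s : 𝓞 K) ∉ P := by rw [memP, map_natCast]; exact hs0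
  have hmain := hT K P x₁ 1 (z : 𝓞 K) (s : 𝓞 K) p V A B r r hPp hPb hx₁P hone hzP hsP hx₁j hlin
    hr1 hfin (by rw [hnorm]) hA hB1 (hb_nat hz hzA) (hb_nat hs hsA) hBx hB1' (by
      refine le_trans ?_ hC
      have h1 : (r : ℝ) ^ 2 * r * B ≤ r ^ 2 * r * (2 * r) := by gcongr
      have h2 : 10 ^ 4 * (r : ℝ) ^ 2 * r * B ≤ 2 * 10 ^ 8 * r ^ 4 := by nlinarith [pow_pos hr0 4]
      gcongr)
  have hlogr : Real.log r ≤ r := by
    have := Real.log_le_sub_one_of_pos hr0
    linarith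
  have hlogr0 : 0 ≤ Real.log r := Real.log_nonneg hr1
  calc (V : ℝ) * Real.log r
      ≤ (10 ^ 8 * (r : ℝ) ^ 4 * r ^ 2 * A * B * (1 + Real.log p) ^ 2) * Real.log r := by gcongr
    _ ≤ (10 ^ 8 * (r : ℝ) ^ 4 * r ^ 2 * A * (2 * r) * (1 + Real.log p) ^ 2) * r := by gcongr
    _ = 2 * 10 ^ 8 * r ^ 8 * A * (1 + Real.log p) ^ 2 := by ring
    _ ≤ 2 * 10 ^ 8 * r ^ 9 * A * (1 + Real.log p) ^ 2 := by
        gcongr
        norm_num

end Pool.Agent.Work.MP_2738db_nt_Y.helper24
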